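import Pool.Agent.W92.ET.Base

/-!
# The ladder of positive kernels (project ET)
-/

open MeasureTheory

namespace Pool.Agent.W196.ET

open Pool.Agent.W92.ET

theorem intE (n : ℕ) (s : ℝ) (hs : 0 < s) :
    ∫ t in Set.Ioi (0 : ℝ), t ^ n * Real.exp (-(s * t)) = (n.factorial : ℝ) / s ^ (n + 1) := by
  have h := Real.integral_rpow_mul_exp_neg_mul_Ioi (a := (n : ℝ) + 1) (by positivity) hs
  rw [show (n : ℝ) + 1 - 1 = n by ring, Real.Gamma_nat_eq_factorial] at h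
  simp only [Real.rpow_natCast] at h
  rw [h, show (n : ℝ) + 1 = ((n + 1 : ℕ) : ℝ) by push_cast; ring, Real.rpow_natCast, one_div,
    inv_pow]
  field_simp

theorem intI (n : ℕ) (s : ℝ) (hs : 0 < s) :
    IntegrableOn (fun t : ℝ => t ^ n * Real.exp (-(s * t))) (Set.Ioi (0 : ℝ)) := by
  apply MeasureTheory.Integrable.of_integral_ne_zero
  rw [intE n s hs]
  have : (0 : ℝ) < (n.factorial : ℝ) / s ^ (n + 1) := by positivity
  exact this.ne'

/-- the functions -/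
noncomputable def ff (k a : ℕ) (t : ℝ) : ℝ :=
  t ^ k * (a : ℝ) ^ k * ((k : ℝ) + 1 / 2 - t * a) * Real.exp (-(a * t))

theorem ff_mul (k a b : ℕ) (t : ℝ) : ff k a t * ff k b t =
    ((a : ℝ) * b) ^ k * (((k : ℝ) + 1 / 2) ^ 2 * (t ^ (2 * k) * Real.exp (-(((a : ℝ) + b) * t)))
      - ((k : ℝ) + 1 / 2) * ((a : ℝ) + b) * (t ^ (2 * k + 1) * Real.exp (-(((a : ℝ) + b) * t)))
      + (a : ℝ) * b * (t ^ (2 * k + 2) * Real.exp (-(((a : ℝ) + b) * t)))) := by
  have h : Real.exp (-(((a : ℝ) + b) * t)) = Real.exp (-(a * t)) * Real.exp (-(b * t)) := by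
    rw [← Real.exp_add]; congr 1; ring
  rw [h]
  simp only [ff]
  ring

theorem ff_int (k a b : ℕ) (ha : 0 < a) :
    IntegrableOn (fun t => ff k a t * ff k b t) (Set.Ioi (0 : ℝ)) ∧
    ∫ t in Set.Ioi (0 : ℝ), ff k a t * ff k b t =
      ((2 * k).factorial : ℝ) * (2 * k + 1) * (2 * k + 2) / 4 ^ (k + 1) *
      (1 / ((a : ℝ) + b) * ((4 * a * b / ((a : ℝ) + b) ^ 2) ^ (k + 1) -
        (2 * k + 1) / (2 * k + 2) * (4 * a * b / ((a : ℝ) + b) ^ 2) ^ k)) := by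
  have ha' : (0 : ℝ) < a := by exact_mod_cast ha
  have hs : (0 : ℝ) < (a : ℝ) + b := by positivity
  have i0 := intI (2 * k) _ hs
  have i1 := intI (2 * k + 1) _ hs
  have i2 := intI (2 * k + 2) _ hs
  have j0 := i0.const_mul (((k : ℝ) + 1 / 2) ^ 2)
  have j1 := i1.const_mul (((k : ℝ) + 1 / 2) * ((a : ℝ) + b))
  have j2 := i2.const_mul ((a : ℝ) * b)
  have e : (fun t => ff k a t * ff k b t) = fun t => ((a : ℝ) * b) ^ k *
      (((k : ℝ) + 1 / 2) ^ 2 * (t ^ (2 * k) * Real.exp (-(((a : ℝ) + b) * t)))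
      - ((k : ℝ) + 1 / 2) * ((a : ℝ) + b) * (t ^ (2 * k + 1) * Real.exp (-(((a : ℝ) + b) * t)))
      + (a : ℝ) * b * (t ^ (2 * k + 2) * Real.exp (-(((a : ℝ) + b) * t)))) := by
    funext t; exact ff_mul k a b t
  refine ⟨?_, ?_⟩
  · rw [e]
    exact ((j0.sub j1).add j2).const_mul _
  · have jj := integral_add (j0.sub j1) j2
    simp only [Pi.sub_apply] at jj
    rw [e, integral_const_mul, jj, integral_sub j0 j1, integral_const_mul, integral_const_mul, integral_const_mul, intE _ _ hs, intE _ _ hs,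
      intE _ _ hs]
    have f1 : (((2 * k + 1).factorial : ℕ) : ℝ) = (2 * k + 1) * ((2 * k).factorial : ℝ) := by
      rw [Nat.factorial_succ]; push_cast; ring
    have f2 : (((2 * k + 2).factorial : ℕ) : ℝ) =
        (2 * k + 2) * ((2 * k + 1) * ((2 * k).factorial : ℝ)) := by
      rw [show 2 * k + 2 = (2 * k + 1) + 1 by ring, Nat.factorial_succ, Nat.cast_mul, f1]
      push_cast; ring
    rw [f1, f2]
    set s : ℝ := (a : ℝ) + b with hsd
    set F : ℝ := ((2 * k).factorial : ℝ)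
    have g1 : (4 * (a : ℝ) * b / s ^ 2) ^ k = 4 ^ k * ((a : ℝ) * b) ^ k / s ^ (2 * k) := by
      rw [div_pow, mul_assoc, mul_pow, ← pow_mul]
    have g2 : (4 * (a : ℝ) * b / s ^ 2) ^ (k + 1) =
        4 ^ k * ((a : ℝ) * b) ^ k / s ^ (2 * k) * (4 * (a : ℝ) * b / s ^ 2) := by
      rw [pow_succ, g1]
    rw [g2, g1]
    have hs' : s ≠ 0 := hs.ne'
    rw [pow_succ s (2 * k), pow_succ s (2 * k + 1), pow_succ s (2 * k), pow_succ s (2 * k + 2),
      pow_succ s (2 * k + 1), pow_succ s (2 * k), pow_succ (4 : ℝ) k]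
    field_simp
    ring

theorem step (A : Finset ℕ) (hA : ∀ a ∈ A, 0 < a) (k : ℕ) :
    0 ≤ ∑ a ∈ A, ∑ b ∈ A, 1 / ((a : ℝ) + b) * ((4 * a * b / ((a : ℝ) + b) ^ 2) ^ (k + 1) -
        (2 * k + 1) / (2 * k + 2) * (4 * a * b / ((a : ℝ) + b) ^ 2) ^ k) := by
  have hc : (0 : ℝ) < ((2 * k).factorial : ℝ) * (2 * k + 1) * (2 * k + 2) / 4 ^ (k + 1) := by
    positivity
  have h1 : 0 ≤ ∫ t in Set.Ioi (0 : ℝ), (∑ a ∈ A, ff k a t) * (∑ b ∈ A, ff k b t) := by
    apply integral_nonneg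
    intro t
    exact mul_self_nonneg _
  have h2 : ∫ t in Set.Ioi (0 : ℝ), (∑ a ∈ A, ff k a t) * (∑ b ∈ A, ff k b t) =
      ∑ a ∈ A, ∑ b ∈ A, ∫ t in Set.Ioi (0 : ℝ), ff k a t * ff k b t := by
    simp only [Finset.sum_mul_sum]
    rw [integral_finsetSum _ fun a ha => integrable_finsetSum _ fun b _ =>
      (ff_int k a b (hA a ha)).1]
    refine Finset.sum_congr rfl fun a ha => ?_
    rw [integral_finsetSum _ fun b _ => (ff_int k a b (hA a ha)).1]
  have h3 : ∑ a ∈ A, ∑ b ∈ A, ∫ t in Set.Ioi (0 : ℝ), ff k a t * ff k b t =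
      ((2 * k).factorial : ℝ) * (2 * k + 1) * (2 * k + 2) / 4 ^ (k + 1) *
      ∑ a ∈ A, ∑ b ∈ A, 1 / ((a : ℝ) + b) * ((4 * a * b / ((a : ℝ) + b) ^ 2) ^ (k + 1) -
        (2 * k + 1) / (2 * k + 2) * (4 * a * b / ((a : ℝ) + b) ^ 2) ^ k) := by
    rw [Finset.mul_sum]
    refine Finset.sum_congr rfl fun a ha => ?_
    rw [Finset.mul_sum]
    refine Finset.sum_congr rfl fun b _ => ?_
    rw [(ff_int k a b (hA a ha)).2]
  rw [h2, h3] at h1
  exact nonneg_of_mul_nonneg_right h1 hc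

theorem ladder : S_ladder := by
  intro A hA k
  induction k with
  | zero =>
    apply le_of_eq
    symm
    apply Finset.sum_eq_zero
    intro a _
    apply Finset.sum_eq_zero
    intro b _
    simp [cc]
  | succ k ih =>
    have hcc : cc (k + 1) = (2 * k + 1) / (2 * k + 2) * cc k := by
      have h := Nat.succ_mul_centralBinom_succ k
      have h' : ((k : ℝ) + 1) * (Nat.centralBinom (k + 1) : ℝ) =
          2 * (2 * k + 1) * (Nat.centralBinom k : ℝ) := by exact_mod_cast h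
      simp only [cc]
      rw [pow_succ]
      field_simp
      linear_combination 2 * h'
    have h1 := step A hA k
    have h2 : ∑ a ∈ A, ∑ b ∈ A, 1 / ((a : ℝ) + b) *
          ((4 * a * b / ((a : ℝ) + b) ^ 2) ^ (k + 1) - cc (k + 1)) =
        ∑ a ∈ A, ∑ b ∈ A, 1 / ((a : ℝ) + b) * ((4 * a * b / ((a : ℝ) + b) ^ 2) ^ (k + 1) -
          (2 * k + 1) / (2 * k + 2) * (4 * a * b / ((a : ℝ) + b) ^ 2) ^ k) +
        ((2 * k + 1) / (2 * k + 2) : ℝ) * ∑ a ∈ A, ∑ b ∈ A, 1 / ((a : ℝ) + b) *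
          ((4 * a * b / ((a : ℝ) + b) ^ 2) ^ k - cc k) := by
      rw [Finset.mul_sum, ← Finset.sum_add_distrib]
      refine Finset.sum_congr rfl fun a _ => ?_
      rw [Finset.mul_sum, ← Finset.sum_add_distrib]
      refine Finset.sum_congr rfl fun b _ => ?_
      rw [hcc]
      ring
    rw [h2]
    have h3 : (0 : ℝ) ≤ (2 * k + 1) / (2 * k + 2) := by positivity
    exact add_nonneg h1 (mul_nonneg h3 ih)

end Pool.Agent.W196.ET
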